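import Pool.Agent.H97.UF.LA

set_option autoImplicit false

/-!
Universal fields of fractions: a division ring `D` over `S`, generated by `S` as a division ring,
such that every square matrix over `S` which is singular over `D` is stably hollow, is unique up
to a unique isomorphism. Extension of automorphisms and of involutions.
-/

namespace Pool.H97.UF

open Matrix MulOpposite

universe u v w

section ext

variable {S : Type u} {D : Type v} {D' : Type w} [Ring S] [DivisionRing D] [DivisionRing D']

/-- Every square matrix over `S` which is singular over `D` is stably hollow. -/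
def Univ (j : S →+* D) : Prop :=
  ∀ (n : Type) [Fintype n] [DecidableEq n] (P : Matrix n n S), ¬ IsUnit (P.map j) → Hollow P

/-- `D` is the division closure of the image of `S`. -/
def DGen (j : S →+* D) : Prop :=
  ∀ K : Subring D, (∀ s, j s ∈ K) → (∀ a ∈ K, a⁻¹ ∈ K) → K = ⊤

theorem DGen.hom_ext {j : S →+* D} (hG : DGen j) {R : Type w} [Ring R] {f g : D →+* R}
    (h : ∀ s, f (j s) = g (j s)) : f = g := by
  have hK := hG (f.eqLocus g) (fun s => h s) ?_
  · ext d
    have : d ∈ f.eqLocus g := by rw [hK]; trivial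
    exact this
  · intro a ha
    change f a⁻¹ = g a⁻¹
    by_cases h0 : a = 0
    · subst h0; rw [_root_.inv_zero, map_zero, map_zero]
    · have ha' : f a = g a := ha
      have h1 : f a⁻¹ * g a = 1 := by
        rw [← ha', ← map_mul, inv_mul_cancel₀ h0, map_one]
      have h2 : g a * g a⁻¹ = 1 := by
        rw [← map_mul, mul_inv_cancel₀ h0, map_one]
      calc f a⁻¹ = f a⁻¹ * (g a * g a⁻¹) := by rw [h2, mul_one]
        _ = g a⁻¹ := by rw [← mul_assoc, h1, one_mul]

theorem isUnit_one11 (r : D) : IsUnit (one11 r) ↔ r ≠ 0 := by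
  constructor
  · rintro ⟨U, hU⟩ h0
    have h1 : (U.1 * U⁻¹.1) () () = 1 := by
      rw [U.mul_inv]; rfl
    rw [hU, Matrix.mul_apply, h0] at h1
    simp [one11] at h1
  · intro h
    refine ⟨⟨one11 r, one11 r⁻¹, ?_, ?_⟩, rfl⟩
    · ext i k
      simp [one11, Matrix.mul_apply, h]
    · ext i k
      simp [one11, Matrix.mul_apply, h]

/-- The zero test. -/
theorem eq_zero_iff_hollow {j : S →+* D} (hU : Univ j) {κ : Type} [Fintype κ] [DecidableEq κ]
    (A : Matrix Unit Unit S) (B : Matrix Unit κ S) (C : Matrix κ Unit S) (Q : Matrix κ κ S)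
    (Qi : Matrix κ κ D) (h1 : Q.map j * Qi = 1) (h2 : Qi * Q.map j = 1) (r : D)
    (h3 : one11 r = A.map j - B.map j * Qi * C.map j) :
    r = 0 ↔ Hollow (fromBlocks A B C Q) := by
  have h4 : IsUnit ((fromBlocks A B C Q).map j) ↔ r ≠ 0 := by
    rw [fromBlocks_map, isUnit_fromBlocks_iff _ _ _ _ Qi h1 h2, ← h3]
    exact isUnit_one11 r
  constructor
  · intro h
    exact hU _ _ (fun h5 => (h4.1 h5) h)
  · intro h
    by_contra h5
    exact not_isUnit_of_hollow j h (h4.2 h5)

/-- EXT: existence. -/
theorem exists_equiv {j : S →+* D} {j' : S →+* D'} (hU : Univ j) (hU' : Univ j')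
    (hG : DGen j) (hG' : DGen j') : ∃ φ : D ≃+* D', ∀ s, φ (j s) = j' s := by
  classical
  set J : S →+* D × D' := j.prod j' with hJ
  let 𝒢 : Subring (D × D') := ratSubring J ⊤ trivial
  have hzero : ∀ p ∈ 𝒢, p.1 = 0 ↔ p.2 = 0 := by
    intro p hp
    obtain ⟨κ, _, _, A, B, C, Q, Qi, -, -, -, -, h1, h2, h3⟩ := hp
    have c1 : (RingHom.fst D D').comp J = j := by ext s; rfl
    have c2 : (RingHom.snd D D').comp J = j' := by ext s; rfl
    have m1 : ∀ {a b : Type} (T : Matrix a b S), (T.map J).map (RingHom.fst D D') = T.map j := by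
      intro a b T; ext i k; rfl
    have m2 : ∀ {a b : Type} (T : Matrix a b S), (T.map J).map (RingHom.snd D D') = T.map j' := by
      intro a b T; ext i k; rfl
    have e1 : ∀ {a b : Type} (T T' : Matrix a b (D × D')),
        (T - T').map (RingHom.fst D D') =
          T.map (RingHom.fst D D') - T'.map (RingHom.fst D D') := by
      intro a b T T'; ext i k; rfl
    have e2 : ∀ {a b : Type} (T T' : Matrix a b (D × D')),
        (T - T').map (RingHom.snd D D') =
          T.map (RingHom.snd D D') - T'.map (RingHom.snd D D') := by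
      intro a b T T'; ext i k; rfl
    have i1 := eq_zero_iff_hollow hU A B C Q (Qi.map (RingHom.fst D D'))
      (by rw [← m1, ← Matrix.map_mul, h1, map_one'])
      (by rw [← m1, ← Matrix.map_mul, h2, map_one']) p.1
      (by
        rw [← m1, ← m1, ← m1, ← Matrix.map_mul, ← Matrix.map_mul, ← e1, ← h3]
        ext i k; rfl)
    have i2 := eq_zero_iff_hollow hU' A B C Q (Qi.map (RingHom.snd D D'))
      (by rw [← m2, ← Matrix.map_mul, h1, map_one'])
      (by rw [← m2, ← Matrix.map_mul, h2, map_one']) p.2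
      (by
        rw [← m2, ← m2, ← m2, ← Matrix.map_mul, ← Matrix.map_mul, ← e2, ← h3]
        ext i k; rfl)
    rw [i1, i2]
  have hinv : ∀ p ∈ 𝒢, (p.1⁻¹, p.2⁻¹) ∈ 𝒢 := by
    intro p hp
    by_cases h0 : p.1 = 0
    · have h0' := (hzero p hp).1 h0
      rw [h0, h0', _root_.inv_zero, _root_.inv_zero]
      exact 𝒢.zero_mem
    · have h0' : p.2 ≠ 0 := fun h => h0 ((hzero p hp).2 h)
      refine inv_mem_ratSubring (r := p) hp ?_ ?_
      · ext
        · exact mul_inv_cancel₀ h0
        · exact mul_inv_cancel₀ h0'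
      · ext
        · exact inv_mul_cancel₀ h0
        · exact inv_mul_cancel₀ h0'
  have hmem : ∀ s, J s ∈ 𝒢 := fun s => lin_mem_ratSubring trivial
  let f1 : 𝒢 →+* D := (RingHom.fst D D').comp 𝒢.subtype
  let f2 : 𝒢 →+* D' := (RingHom.snd D D').comp 𝒢.subtype
  have inj1 : Function.Injective f1 := by
    rw [injective_iff_map_eq_zero]
    rintro ⟨p, hp⟩ h
    have h1 : p.1 = 0 := h
    have h2 := (hzero p hp).1 h1
    exact Subtype.ext (Prod.ext h1 h2)
  have inj2 : Function.Injective f2 := by
    rw [injective_iff_map_eq_zero]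
    rintro ⟨p, hp⟩ h
    have h2 : p.2 = 0 := h
    have h1 := (hzero p hp).2 h2
    exact Subtype.ext (Prod.ext h1 h2)
  have surj1 : Function.Surjective f1 := by
    rw [← RingHom.range_eq_top]
    refine hG _ ?_ ?_
    · intro s
      exact ⟨⟨J s, hmem s⟩, rfl⟩
    · rintro _ ⟨⟨p, hp⟩, rfl⟩
      exact ⟨⟨_, hinv p hp⟩, rfl⟩
  have surj2 : Function.Surjective f2 := by
    rw [← RingHom.range_eq_top]
    refine hG' _ ?_ ?_
    · intro s
      exact ⟨⟨J s, hmem s⟩, rfl⟩
    · rintro _ ⟨⟨p, hp⟩, rfl⟩
      exact ⟨⟨_, hinv p hp⟩, rfl⟩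
  let E1 : 𝒢 ≃+* D := RingEquiv.ofBijective f1 ⟨inj1, surj1⟩
  let E2 : 𝒢 ≃+* D' := RingEquiv.ofBijective f2 ⟨inj2, surj2⟩
  refine ⟨E1.symm.trans E2, fun s => ?_⟩
  have : E1.symm (j s) = ⟨J s, hmem s⟩ := by
    rw [RingEquiv.symm_apply_eq]
    rfl
  rw [RingEquiv.trans_apply, this]
  rfl

end ext

section transport

variable {S : Type u} [Ring S]

theorem Hollow.map {S' : Type w} [Ring S'] (f : S →+* S') {n : Type} [Fintype n] [DecidableEq n]
    {P : Matrix n n S} (h : Hollow P) : Hollow (P.map f) := by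
  obtain ⟨k, _, _, r, _, A, B, hlt, hAB⟩ := h
  refine ⟨k, inferInstance, inferInstance, r, inferInstance, A.map f, B.map f, hlt, ?_⟩
  have h2 := congrArg (fun M : Matrix (n ⊕ k) (n ⊕ k) S => M.map f) hAB
  simp only [fromBlocks_map, map_zero', map_one'] at h2
  rw [h2, Matrix.map_mul]

/-- transposed matrix over the opposite ring -/
def opT {R : Type v} {m n : Type} (A : Matrix m n R) : Matrix n m Rᵐᵒᵖ :=
  Matrix.of fun i k => op (A k i)

theorem opT_mul {R : Type v} [Ring R] {m n l : Type} [Fintype n] (A : Matrix m n R)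
    (B : Matrix n l R) : opT (A * B) = opT B * opT A := by
  ext i k
  apply unop_injective
  simp [opT, Matrix.mul_apply]

theorem opT_one {R : Type v} [Ring R] {m : Type} [DecidableEq m] :
    opT (1 : Matrix m m R) = 1 := by
  ext i k
  by_cases h : i = k
  · subst h; simp [opT]
  · simp [opT, Matrix.one_apply_ne h, Matrix.one_apply_ne (Ne.symm h)]

theorem isUnit_opT {R : Type v} [Ring R] {m : Type} [Fintype m] [DecidableEq m]
    {A : Matrix m m R} (h : IsUnit A) : IsUnit (opT A) := by
  obtain ⟨⟨A, B, h1, h2⟩, rfl⟩ := h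
  refine ⟨⟨opT A, opT B, ?_, ?_⟩, rfl⟩
  · rw [← opT_mul, h2, opT_one]
  · rw [← opT_mul, h1, opT_one]

theorem Hollow.opT {n : Type} [Fintype n] [DecidableEq n]
    {P : Matrix n n S} (h : Hollow P) : Hollow (opT P) := by
  obtain ⟨k, _, _, r, _, A, B, hlt, hAB⟩ := h
  refine ⟨k, inferInstance, inferInstance, r, inferInstance, UF.opT B, UF.opT A, hlt, ?_⟩
  rw [← opT_mul, ← hAB]
  ext (i | i) (l | l)
  · rfl
  · simp [UF.opT]
  · simp [UF.opT]
  · rw [fromBlocks_apply₂₂, ← opT_one]
    rfl

variable {D : Type v} [DivisionRing D]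

theorem Univ.comp_equiv {j : S →+* D} (hU : Univ j) {S' : Type w} [Ring S'] (σ : S' ≃+* S) :
    Univ (j.comp (σ : S' →+* S)) := by
  intro n _ _ P hP
  have h1 : Hollow (P.map σ) := hU n (P.map σ) hP
  have h2 := h1.map (σ.symm : S →+* S')
  have h3 : (P.map σ).map (σ.symm : S →+* S') = P := by
    ext i k; simp
  rw [h3] at h2
  exact h2

theorem DGen.comp_equiv {j : S →+* D} (hG : DGen j) {S' : Type w} [Ring S'] (σ : S' ≃+* S) :
    DGen (j.comp (σ : S' →+* S)) := by
  intro K h1 h2
  refine hG K (fun s => ?_) h2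
  have := h1 (σ.symm s)
  simpa using this

theorem Univ.equiv_comp {j : S →+* D} (hU : Univ j) {D' : Type w} [DivisionRing D']
    (τ : D ≃+* D') : Univ ((τ : D →+* D').comp j) := by
  intro n _ _ P hP
  refine hU n P (fun h => hP ?_)
  obtain ⟨⟨A, B, h1, h2⟩, hA⟩ := h
  simp only at hA
  subst hA
  refine ⟨⟨(P.map j).map τ, B.map τ, ?_, ?_⟩, ?_⟩
  · have := congrArg (fun M : Matrix n n D => M.map (τ : D →+* D')) h1
    simp only [Matrix.map_mul, map_one'] at this
    exact this
  · have := congrArg (fun M : Matrix n n D => M.map (τ : D →+* D')) h2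
    simp only [Matrix.map_mul, map_one'] at this
    exact this
  · ext i k; rfl

/-- the opposite of a ring homomorphism -/
def opHom (j : S →+* D) : Sᵐᵒᵖ →+* Dᵐᵒᵖ := RingHom.op j

theorem opHom_apply (j : S →+* D) (s : Sᵐᵒᵖ) : opHom j s = op (j (unop s)) := rfl

theorem Univ.op {j : S →+* D} (hU : Univ j) : Univ (opHom j) := by
  intro n _ _ P hP
  -- the transposed matrix over `S`
  let P' : Matrix n n S := Matrix.of fun i k => unop (P k i)
  have e1 : UF.opT P' = P := by ext i k; rfl
  have h1 : Hollow P' := by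
    refine hU n P' (fun h => hP ?_)
    have h2 := isUnit_opT h
    have e2 : UF.opT (P'.map j) = P.map (opHom j) := by ext i k; rfl
    rw [e2] at h2
    exact h2
  have h3 := h1.opT
  rw [e1] at h3
  exact h3

theorem DGen.op {j : S →+* D} (hG : DGen j) : DGen (opHom j) := by
  intro K h1 h2
  have h3 : K.unop = ⊤ := by
    refine hG _ (fun s => ?_) (fun a ha => ?_)
    · exact h1 (MulOpposite.op s)
    · exact h2 (MulOpposite.op a) ha
  rw [eq_top_iff]
  intro x _
  have : unop x ∈ K.unop := by rw [h3]; trivial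
  exact this

end transport

section cor

variable {S : Type u} {D : Type v} [Ring S] [DivisionRing D] {j : S →+* D}

/-- Automorphisms of `S` extend to `D`. -/
theorem exists_aut (hU : Univ j) (hG : DGen j) (σ : S ≃+* S) :
    ∃ φ : D ≃+* D, ∀ s, φ (j s) = j (σ s) :=
  exists_equiv hU (hU.comp_equiv σ) hG (hG.comp_equiv σ)

/-- Antiautomorphisms of `S` extend to `D`. -/
theorem exists_antiaut (hU : Univ j) (hG : DGen j) (σ : S ≃+* Sᵐᵒᵖ) :
    ∃ φ : D ≃+* Dᵐᵒᵖ, ∀ s, φ (j s) = op (j (unop (σ s))) :=
  exists_equiv hU (hU.op.comp_equiv σ) hG (hG.op.comp_equiv σ)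

/-- A group of automorphisms of `S` acts on `D`. -/
theorem exists_action (hU : Univ j) (hG : DGen j) {Q : Type w} [Group Q]
    (a : Q →* RingAut S) : ∃ A : Q →* RingAut D, ∀ q s, A q (j s) = j (a q s) := by
  choose φ hφ using fun q => exists_aut hU hG (a q)
  refine ⟨{ toFun := φ, map_one' := ?_, map_mul' := ?_ }, fun q s => hφ q s⟩
  · have h := hG.hom_ext (f := (φ 1 : D →+* D)) (g := RingHom.id D) (by
      intro s
      change φ 1 (j s) = j s
      rw [hφ, map_one]
      rfl)
    ext d
    exact RingHom.congr_fun h d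
  · intro q q'
    have h := hG.hom_ext (f := (φ (q * q') : D →+* D)) (g := ((φ q * φ q' : RingAut D) : D →+* D)) (by
      intro s
      change φ (q * q') (j s) = φ q (φ q' (j s))
      rw [hφ, hφ, hφ, map_mul]
      rfl)
    ext d
    exact RingHom.congr_fun h d

/-- An involution of `S` extends to `D`. -/
theorem exists_star [StarRing S] (hU : Univ j) (hG : DGen j) :
    ∃ _ : StarRing D, ∀ s, star (j s) = j (star s) := by
  obtain ⟨φ, hφ⟩ := exists_antiaut hU hG (starRingEquiv (R := S))
  have hφ' : ∀ s, unop (φ (j s)) = j (star s) := by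
    intro s
    rw [hφ]
    rfl
  -- the square
  let f : D →+* D :=
    { toFun := fun d => unop (φ (unop (φ d)))
      map_one' := by simp
      map_mul' := by intro a b; simp
      map_zero' := by simp
      map_add' := by intro a b; simp }
  have hf : f = RingHom.id D := hG.hom_ext (by
    intro s
    change unop (φ (unop (φ (j s)))) = j s
    rw [hφ', hφ', star_star])
  refine ⟨{ star := fun d => unop (φ d)
            star_involutive := fun d => RingHom.congr_fun hf d
            star_mul := fun a b => by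
              change unop (φ (a * b)) = unop (φ b) * unop (φ a)
              rw [map_mul, unop_mul]
            star_add := fun a b => by
              change unop (φ (a + b)) = unop (φ a) + unop (φ b)
              rw [map_add, unop_add] }, fun s => ?_⟩
  exact hφ' s

/-- Compatibility of the involution with an automorphism. -/
theorem star_aut [StarRing S] [StarRing D] (hG : DGen j) (hs : ∀ s, star (j s) = j (star s))
    (σ : S ≃+* S) (hσ : ∀ s, σ (star s) = star (σ s)) (φ : D ≃+* D)
    (hφ : ∀ s, φ (j s) = j (σ s)) (d : D) : φ (star d) = star (φ d) := by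
  let f : D →+* Dᵐᵒᵖ :=
    { toFun := fun d => op (φ (star d))
      map_one' := by simp
      map_mul' := by intro a b; simp
      map_zero' := by simp
      map_add' := by intro a b; simp }
  let g : D →+* Dᵐᵒᵖ :=
    { toFun := fun d => op (star (φ d))
      map_one' := by simp
      map_mul' := by intro a b; simp
      map_zero' := by simp
      map_add' := by intro a b; simp }
  have h : f = g := hG.hom_ext (by
    intro s
    change op (φ (star (j s))) = op (star (φ (j s)))
    rw [hs, hφ, hφ, hs, hσ])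
  have := RingHom.congr_fun h d
  exact op_injective this

end cor

end Pool.H97.UF
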