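import Pool.Agent.H97.UF.Fact
import Pool.Agent.H97.UF.Ext
import Pool.Agent.H54.MN.Jinj

set_option autoImplicit false

/-!
The division closure of the skew group ring of a free group in the series field is a universal
field of fractions: Lemma L and the extension property hold for it.
-/

namespace Pool.H97.UF

open Pool.Agent.H54 Matrix MulOpposite

variable {E X L : Type} [DivisionRing E] [MulSemiringAction (FreeGroup X) E] [DivisionRing L]
  (S : MNS.Series E (FreeGroup X) L)

/-- The division closure of the skew group ring in the series field. -/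
def SD : Subfield L := Subfield.closure (Set.range S.ofSkew)

/-- The embedding of the skew group ring. -/
noncomputable def Sphi : SkewMonoidAlgebra E (FreeGroup X) →+* SD S :=
  S.ofSkew.codRestrict (SD S) (fun r => Subfield.subset_closure ⟨r, rfl⟩)

theorem Sphi_coe (r : SkewMonoidAlgebra E (FreeGroup X)) : ((Sphi S r : SD S) : L) = S.ofSkew r :=
  rfl

theorem Sphi_injective : Function.Injective (Sphi S) := by
  intro a b h
  exact S.ofSkew_injective (congrArg Subtype.val h)

theorem dgen_Sphi : DGen (Sphi S) := by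
  intro K h1 h2
  rw [eq_top_iff]
  rintro ⟨d, hd⟩ htriv
  clear htriv
  induction hd using Subfield.closure_induction with
  | mem x hx =>
    obtain ⟨r, rfl⟩ := hx
    exact h1 r
  | one => exact K.one_mem
  | add x y hx hy ihx ihy => exact K.add_mem ihx ihy
  | neg x hx ihx => exact K.neg_mem ihx
  | inv x hx ihx => exact h2 _ ihx
  | mul x y hx hy ihx ihy => exact K.mul_mem ihx ihy

/-- the embedding of `E` in the skew group ring -/
noncomputable def epsS (E X : Type) [DivisionRing E] [MulSemiringAction (FreeGroup X) E] :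
    E →+* SkewMonoidAlgebra E (FreeGroup X) := SkewMonoidAlgebra.singleOneRingHom

theorem epsS_apply (e : E) : epsS E X e = SkewMonoidAlgebra.single 1 e := rfl

/-- the group elements as units of the skew group ring -/
noncomputable def unitS (E : Type) {G : Type} [DivisionRing E] [Group G] [MulSemiringAction G E] :
    G →* (SkewMonoidAlgebra E G)ˣ where
  toFun g := ⟨SkewMonoidAlgebra.single g 1, SkewMonoidAlgebra.single g⁻¹ 1,
    by rw [SkewMonoidAlgebra.single_mul_single, smul_one, mul_one, mul_inv_cancel]; rfl,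
    by rw [SkewMonoidAlgebra.single_mul_single, smul_one, mul_one, inv_mul_cancel]; rfl⟩
  map_one' := Units.ext rfl
  map_mul' a b := by
    apply Units.ext
    show SkewMonoidAlgebra.single (a * b) 1 =
      SkewMonoidAlgebra.single a 1 * SkewMonoidAlgebra.single b 1
    rw [SkewMonoidAlgebra.single_mul_single, smul_one, mul_one]

theorem unitS_apply {E G : Type} [DivisionRing E] [Group G] [MulSemiringAction G E] (g : G) :
    ((unitS E g : (SkewMonoidAlgebra E G)ˣ) : SkewMonoidAlgebra E G) =
      SkewMonoidAlgebra.single g 1 := rfl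

theorem ofSkew_eps (e : E) : S.ofSkew (epsS E X e) = S.C e := by
  rw [epsS_apply, S.ofSkew_single, map_one, Units.val_one, mul_one]

theorem ofSkew_unit (g : FreeGroup X) :
    S.ofSkew ((unitS E g : (SkewMonoidAlgebra E (FreeGroup X))ˣ) :
      SkewMonoidAlgebra E (FreeGroup X)) = (S.U g : L) := by
  rw [unitS_apply, S.ofSkew_single, map_one, one_mul]

theorem gen_skew (K : Subring (SkewMonoidAlgebra E (FreeGroup X))) (h1 : ∀ e, epsS E X e ∈ K)
    (h2 : ∀ i : X, ((unitS E (FreeGroup.of i) : (SkewMonoidAlgebra E (FreeGroup X))ˣ) :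
      SkewMonoidAlgebra E (FreeGroup X)) ∈ K)
    (h3 : ∀ i : X, (((unitS E (FreeGroup.of i))⁻¹ : (SkewMonoidAlgebra E (FreeGroup X))ˣ) :
      SkewMonoidAlgebra E (FreeGroup X)) ∈ K) : K = ⊤ := by
  have hg : ∀ g : FreeGroup X, ((unitS E g : (SkewMonoidAlgebra E (FreeGroup X))ˣ) :
      SkewMonoidAlgebra E (FreeGroup X)) ∈ K := by
    intro g
    induction g using FreeGroup.induction_on with
    | C1 => rw [map_one]; exact K.one_mem
    | of x => exact h2 x
    | inv_of x ih => rw [map_inv]; exact h3 x
    | mul g h ihg ihh => rw [map_mul]; exact K.mul_mem ihg ihh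
  rw [eq_top_iff]
  intro r htriv
  clear htriv
  induction r using SkewMonoidAlgebra.induction_on with
  | zero => exact K.zero_mem
  | single g e =>
    have : (SkewMonoidAlgebra.single g e : SkewMonoidAlgebra E (FreeGroup X)) =
        epsS E X e * ((unitS E g : (SkewMonoidAlgebra E (FreeGroup X))ˣ) :
      SkewMonoidAlgebra E (FreeGroup X)) := by
      rw [epsS_apply, unitS_apply, SkewMonoidAlgebra.single_mul_single, one_mul, one_smul, mul_one]
    rw [this]
    exact K.mul_mem (h1 e) (hg g)
  | add a b ha hb => exact K.add_mem ha hb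

/-- the function model of the tensor product on the division closure -/
noncomputable def tD : SD S →+ SD S →+ (FreeGroup X × FreeGroup X → E) :=
  AddMonoidHom.mk' (fun c => (S.t (c : L)).comp ((SD S).subtype : SD S →+ L)) (by
    intro a b
    ext z : 1
    change S.t ((a + b : SD S) : L) (z : L) = S.t (a : L) (z : L) + S.t (b : L) (z : L)
    rw [Subfield.coe_add, map_add]
    rfl)

theorem tD_apply (c z : SD S) : tD S c z = S.t (c : L) (z : L) := rfl

theorem tD_bal (c z : SD S) (e : E) :
    tD S (c * Sphi S (epsS E X e)) z = tD S c (Sphi S (epsS E X e) * z) := by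
  rw [tD_apply, tD_apply, Subfield.coe_mul, Subfield.coe_mul, Sphi_coe, ofSkew_eps, S.t_bal]

theorem coe_sum {κ : Type} (s : Finset κ) (f : κ → SD S) :
    ((∑ k ∈ s, f k : SD S) : L) = ∑ k ∈ s, (f k : L) :=
  map_sum (SD S).subtype f s

theorem tD_ind (κ : Type) [Fintype κ] (c z : κ → SD S)
    (hz : ∀ e : κ → E, ∑ k, Sphi S (epsS E X (e k)) * z k = 0 → e = 0)
    (h : ∑ k, tD S (c k) (z k) = 0) : c = 0 := by
  have h1 := S.t_ind Finset.univ (fun k => (c k : L)) (fun k => (z k : L)) ?_ h
  · funext k
    exact Subtype.ext (h1 k (Finset.mem_univ k))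
  · intro e he k _
    have h2 := hz e (by
      apply Subtype.ext
      rw [coe_sum, Subfield.coe_zero, ← he]
      refine Finset.sum_congr rfl fun k _ => ?_
      rw [Subfield.coe_mul, Sphi_coe, ofSkew_eps])
    exact congrFun h2 k

theorem tD_Jinj (κ : Type) [Fintype κ] (ξ : κ → X) (c z : κ → SD S)
    (h : ∑ k, (tD S (c k * Sphi S ((unitS E (FreeGroup.of (ξ k)) :
        (SkewMonoidAlgebra E (FreeGroup X))ˣ) : SkewMonoidAlgebra E (FreeGroup X)))
      (Sphi S (((unitS E (FreeGroup.of (ξ k)))⁻¹ :
        (SkewMonoidAlgebra E (FreeGroup X))ˣ) : SkewMonoidAlgebra E (FreeGroup X)) * z k) -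
      tD S (c k) (z k)) = 0)
    (i : X) [DecidablePred fun k => ξ k = i] : ∑ k with ξ k = i, tD S (c k) (z k) = 0 := by
  have h1 := S.t_Jinj Finset.univ ξ (fun k => (c k : L)) (fun k => (z k : L)) (by
    rw [← h]
    refine Finset.sum_congr rfl fun k _ => ?_
    rw [tD_apply, tD_apply, Subfield.coe_mul, Subfield.coe_mul, Sphi_coe, Sphi_coe, ofSkew_unit,
      ← map_inv (unitS E), ofSkew_unit, map_inv S.U]) i
  refine Eq.trans ?_ h1
  refine Finset.sum_congr ?_ fun _ _ => rfl
  ext k
  simp

/-- Lemma L for the division closure of the skew group ring. -/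
theorem univ_Sphi : Univ (Sphi S) := by
  classical
  intro n _ _ P hP
  refine hollow_of_not_isUnit (epsS E X) (fun i : X => unitS E (FreeGroup.of i)) (Sphi S) (tD S)
    (tD_bal S) (tD_ind S) (tD_Jinj S)
    (fun i => MulSemiringAction.toRingEquiv (FreeGroup X) E (FreeGroup.of i)) ?_ gen_skew P hP
  intro i e
  rw [unitS_apply, epsS_apply, epsS_apply, SkewMonoidAlgebra.single_mul_single,
    SkewMonoidAlgebra.single_mul_single, one_mul, mul_one, one_mul, one_smul, mul_one]
  rfl

end Pool.H97.UF
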