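import Pool.Agent.H97.UF.Lin

set_option autoImplicit false

/-!
A linear matrix which is singular over `D` factors through a smaller size; hence every
matrix over `S` which is singular over `D` is stably hollow.
-/

namespace Pool.H97.UF

open Matrix

universe u₁ u₂ u₃ u₄ u₅

variable {E : Type u₁} {S : Type u₂} {X : Type u₃} {D : Type u₄} {M : Type u₅}
  [DivisionRing E] [Ring S] [DivisionRing D] [AddCommGroup M]

/-- A maximal independent subfamily, with coefficients (`E` acts through `i : E →+* R` on the
left of the additive group of functions `B → R`). -/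
theorem exists_indep {R : Type u₂} [Ring R] (i : E →+* R) {m B : Type} [Fintype m]
    (v : m → B → R) :
    ∃ (I : Type) (_ : Fintype I) (_ : DecidableEq I) (f : I → m) (g : m → I → E),
      Function.Injective f ∧
      (∀ k : I, ∀ l : I, g (f k) l = if k = l then 1 else 0) ∧
      (∀ l b, v l b = ∑ k, i (g l k) * v (f k) b) ∧
      (∀ c : I → E, (∀ b, ∑ k, i (c k) * v (f k) b = 0) → c = 0) := by
  classical
  letI : Module E R := Module.compHom R i
  have hsm : ∀ (e : E) (r : R), e • r = i e * r := fun e r => rfl
  obtain ⟨I, -, -, hspan, hind⟩ := exists_linearIndepOn_extension (K := E) (v := v)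
    (linearIndepOn_empty E v) (Set.empty_subset Set.univ)
  have hcoef : ∀ l, ∃ g : I → E, ∑ k, g k • v k = v l := by
    intro l
    have h1 : v l ∈ Submodule.span E (v '' I) := hspan ⟨l, trivial, rfl⟩
    rw [Set.image_eq_range] at h1
    exact (Submodule.mem_span_range_iff_exists_fun E).1 h1
  choose g hg using hcoef
  refine ⟨I, inferInstance, inferInstance, fun k => k, fun l k =>
    if h : l ∈ I then (if (⟨l, h⟩ : I) = k then 1 else 0) else g l k, Subtype.val_injective,
    ?_, ?_, ?_⟩
  · intro k l
    beta_reduce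
    rw [dif_pos k.2]
  · intro l b
    by_cases h : l ∈ I
    · rw [Finset.sum_eq_single (⟨l, h⟩ : I)]
      · simp [h]
      · intro k _ hk
        beta_reduce
        rw [dif_pos h, if_neg (Ne.symm hk), map_zero, zero_mul]
      · intro h'; exact absurd (Finset.mem_univ _) h'
    · simp only [dif_neg h]
      have := congrFun (hg l) b
      rw [← this, Finset.sum_apply]
      rfl
  · intro c hc
    have hli : LinearIndependent E (fun k : I => v k) := hind
    rw [Fintype.linearIndependent_iff] at hli
    funext k
    refine hli c ?_ k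
    funext b
    rw [Finset.sum_apply]
    exact hc b

section key

variable (eps : E →+* S) (x : X → Sˣ) (j : S →+* D) (t : D →+ D →+ M)
  (bal : ∀ (c z : D) (e : E), t (c * j (eps e)) z = t c (j (eps e) * z))
  (ind : ∀ (κ : Type) [Fintype κ] (c z : κ → D),
    (∀ e : κ → E, ∑ k, j (eps (e k)) * z k = 0 → e = 0) → ∑ k, t (c k) (z k) = 0 → c = 0)
  (Jinj : ∀ (κ : Type) [Fintype κ] (ξ : κ → X) (c z : κ → D),
    ∑ k, (t (c k * j (x (ξ k))) (j ((x (ξ k))⁻¹ : Sˣ) * z k) - t (c k) (z k)) = 0 →
    ∀ (i : X) [DecidablePred fun k => ξ k = i], ∑ k with ξ k = i, t (c k) (z k) = 0)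
  (a : X → E ≃+* E) (comm : ∀ i e, (x i : S) * eps e = eps (a i e) * x i)

include bal ind Jinj comm in
/-- A linear matrix with a nontrivial kernel over `D` factors over `S` through a smaller size. -/
theorem linear_factor {m : Type} [Fintype m] [DecidableEq m] (L : Matrix m m S)
    (hL : ∀ i k, L i k ∈ Lin eps x) (y : m → D) (hy : y ≠ 0) (hLy : L.map j *ᵥ y = 0) :
    ∃ (r : Type) (_ : Fintype r) (A : Matrix m r S) (B : Matrix r m S),
      Fintype.card r < Fintype.card m ∧ L = A * B := by
  classical
  obtain ⟨B, _, _, f, g, hf, hgf, hvg, hfind⟩ := exists_indep (j.comp eps) (B := Unit)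
    (fun l _ => y l)
  -- the reduced matrix
  set G : Matrix m B S := Matrix.of fun l b => eps (g l b) with hG
  set Q1 : Matrix m B S := L * G with hQ1
  have hyG : ∀ l, y l = ∑ b, j (G l b) * y (f b) := fun l => hvg l ()
  have hfind' : ∀ e : B → E, ∑ k, j (eps (e k)) * y (f k) = 0 → e = 0 := by
    intro e he
    exact hfind e fun _ => he
  have hQ1lin : ∀ i b, Q1 i b ∈ Lin eps x := by
    intro i b
    rw [hQ1, Matrix.mul_apply]
    exact AddSubgroup.sum_mem _ fun l _ => lin_mul_eps eps x a comm (hL i l) _
  have hQ1y : ∀ i, ∑ b, j (Q1 i b) * y (f b) = 0 := by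
    intro i
    have h1 := congrFun hLy i
    rw [Matrix.mulVec, dotProduct] at h1
    simp only [Matrix.map_apply, Pi.zero_apply] at h1
    rw [← h1]
    simp only [hQ1, Matrix.mul_apply, map_sum, map_mul, Finset.sum_mul]
    rw [Finset.sum_comm]
    refine Finset.sum_congr rfl fun l _ => ?_
    rw [hyG l, Finset.mul_sum]
    refine Finset.sum_congr rfl fun b _ => ?_
    rw [mul_assoc]
  have hyB : (fun b => y (f b)) ≠ 0 := by
    intro h
    apply hy
    funext l
    rw [hyG l]
    refine Finset.sum_eq_zero fun b _ => ?_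
    have := congrFun h b
    simp only [Pi.zero_apply] at this
    rw [this, mul_zero]
  -- the rows
  obtain ⟨I, _, _, f', g', hf', hgf', hvg', hfind2⟩ := exists_indep eps (fun l b => Q1 l b)
  have hcard : Fintype.card I < Fintype.card B := by
    by_contra hcon
    push Not at hcon
    obtain ⟨e⟩ := Function.Embedding.nonempty_of_card_le hcon
    choose q hq using fun b b' => hQ1lin (f' (e b)) b'
    have hsing : (Matrix.of fun b b' => j (lin eps x (q b b'))) *ᵥ (fun b => y (f b)) = 0 := by
      funext b
      rw [Matrix.mulVec, dotProduct]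
      simp only [Matrix.of_apply, Pi.zero_apply, hq]
      exact hQ1y _
    obtain ⟨d, hd, hd0⟩ := exists_vecMul_of_mulVec _ hyB hsing
    obtain ⟨c, hc, hc0⟩ := key_lemma eps x j t bal ind Jinj a comm q (fun b => y (f b)) d hfind' hd
      (fun b => by simpa [hq] using hQ1y (f' (e b)))
      (fun b' => by
        have := congrFun hd0 b'
        rw [Matrix.vecMul, dotProduct] at this
        simpa using this)
    apply hc
    have hext := hfind2 (fun k => ∑ b, if e b = k then c b else 0) ?_
    · funext b
      have h3 := congrFun hext (e b)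
      simp only [Pi.zero_apply] at h3
      rw [Finset.sum_eq_single b] at h3
      · simpa using h3
      · intro b' _ hb'
        rw [if_neg]
        intro h
        exact hb' (e.injective h)
      · intro h; exact absurd (Finset.mem_univ _) h
    · intro b'
      have h4 := hc0 b'
      simp only [hq] at h4
      rw [← h4]
      simp only [map_sum, Finset.sum_mul]
      rw [Finset.sum_comm]
      refine Finset.sum_congr rfl fun b _ => ?_
      rw [Finset.sum_eq_single (e b)]
      · simp
      · intro k _ hk
        rw [if_neg (Ne.symm hk), map_zero, zero_mul]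
      · intro h; exact absurd (Finset.mem_univ _) h
  -- the factorisation
  let Pi' : Matrix B m S := Matrix.of fun b k => if f b = k then 1 else 0
  let H' : Matrix m I S := Matrix.of fun l k => eps (g' l k)
  let R' : Matrix I B S := Matrix.of fun k b => Q1 (f' k) b
  have hHR : Q1 = H' * R' := by
    ext l b
    rw [Matrix.mul_apply]
    exact hvg' l b
  let Bc := {l : m // ∀ b, f b ≠ l}
  let L' : Matrix m Bc S := Matrix.of fun i l => L i l
  let Z : Matrix m m S := 1 - G * Pi'
  let N' : Matrix Bc m S := Matrix.of fun l k => Z l k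
  refine ⟨I ⊕ Bc, inferInstance, fromCols H' L', fromRows (R' * Pi') N', ?_, ?_⟩
  · have h5 : Fintype.card B + Fintype.card Bc = Fintype.card m := by
      rw [← Fintype.card_sum]
      refine Fintype.card_congr (Equiv.ofBijective
        (Sum.elim f (fun l : Bc => (l : m))) ⟨?_, ?_⟩)
      · rintro (b | b) (b' | b') h
        · simpa using hf h
        · exact absurd h (b'.2 b)
        · exact absurd h.symm (b.2 b')
        · simpa using Subtype.ext h
      · intro l
        by_cases h : ∃ b, f b = l
        · obtain ⟨b, rfl⟩ := h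
          exact ⟨Sum.inl b, rfl⟩
        · push Not at h
          exact ⟨Sum.inr ⟨l, h⟩, rfl⟩
    rw [Fintype.card_sum]
    omega
  · rw [fromCols_mul_fromRows, ← Matrix.mul_assoc, ← hHR]
    have h6 : L' * N' = L * Z := by
      ext i k
      rw [Matrix.mul_apply, Matrix.mul_apply]
      have h7 : ∀ l : m, ¬ (∀ b, f b ≠ l) → Z l k = 0 := by
        intro l hl
        push Not at hl
        obtain ⟨b, rfl⟩ := hl
        change (1 : Matrix m m S) (f b) k - (G * Pi') (f b) k = 0
        rw [Matrix.mul_apply, Finset.sum_eq_single b]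
        · simp only [Pi', hG, Matrix.of_apply, hgf, if_true, map_one, one_mul, Matrix.one_apply,
            sub_self]
        · intro b' _ hb'
          simp only [hG, Matrix.of_apply, hgf]
          rw [if_neg (Ne.symm hb'), map_zero, zero_mul]
        · intro h; exact absurd (Finset.mem_univ _) h
      have h8 : ∑ l : Bc, L' i l * N' l k =
          ∑ l ∈ Finset.univ.filter (fun l : m => ∀ b, f b ≠ l), L i l * Z l k := by
        exact (Finset.sum_subtype (p := fun l => ∀ b, f b ≠ l)
          (Finset.univ.filter fun l => ∀ b, f b ≠ l) (by intro l; simp)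
          (fun l => L i l * Z l k)).symm
      rw [h8, Finset.sum_filter]
      refine Finset.sum_congr rfl fun l _ => ?_
      by_cases hl : ∀ b, f b ≠ l
      · rw [if_pos hl]
      · rw [if_neg hl, h7 l hl, mul_zero]
    rw [h6, hQ1]
    simp only [Z]
    rw [Matrix.mul_sub, Matrix.mul_one, Matrix.mul_assoc]
    abel

include bal ind Jinj comm in
/-- LEMMA L: a square matrix over `S` which is not invertible over `D` is stably hollow. -/
theorem hollow_of_not_isUnit
    (gen : ∀ K : Subring S, (∀ e, eps e ∈ K) → (∀ i, (x i : S) ∈ K) →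
      (∀ i, (((x i)⁻¹ : Sˣ) : S) ∈ K) → K = ⊤)
    {n : Type} [Fintype n] [DecidableEq n] (P : Matrix n n S) (hP : ¬ IsUnit (P.map j)) :
    Hollow P := by
  classical
  have htop : ratSubring (RingHom.id S) (Lin eps x) (one_mem_Lin eps x) = ⊤ := by
    refine gen _ ?_ ?_ ?_
    · intro e
      exact lin_mem_ratSubring (j := RingHom.id S) (eps_mem_Lin eps x e)
    · intro i
      exact lin_mem_ratSubring (j := RingHom.id S) (x_mem_Lin eps x i)
    · intro i
      exact inv_mem_ratSubring (hone := one_mem_Lin eps x)
        (lin_mem_ratSubring (j := RingHom.id S) (x_mem_Lin eps x i))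
        (by simp) (by simp)
  have hrep : Rep (RingHom.id S) (Lin eps x) P :=
    rep_of_entries (hone := one_mem_Lin eps x) P (fun i k => by rw [htop]; trivial)
  obtain ⟨κ, _, _, A, B, C, Q, Qi, hA, hB, hC, hQ, h1, h2, h3⟩ := hrep
  have hid : ∀ {a b : Type} (T : Matrix a b S), T.map (RingHom.id S) = T := fun T => by
    ext i k; rfl
  rw [hid] at h1 h2
  rw [hid, hid, hid] at h3
  set L : Matrix (n ⊕ κ) (n ⊕ κ) S := fromBlocks A B C Q with hLdef
  have hL : ∀ i k, L i k ∈ Lin eps x := by
    rintro (i | i) (k | k)
    · exact hA i k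
    · exact hB i k
    · exact hC i k
    · exact hQ i k
  have hsing : ¬ IsUnit (L.map j) := by
    intro hu
    apply hP
    rw [hLdef, fromBlocks_map] at hu
    have h1' : Q.map j * Qi.map j = 1 := by rw [← Matrix.map_mul, h1, map_one']
    have h2' : Qi.map j * Q.map j = 1 := by rw [← Matrix.map_mul, h2, map_one']
    rw [isUnit_fromBlocks_iff _ _ _ _ _ h1' h2'] at hu
    rw [h3]
    have h4 : (A - B * Qi * C).map j = A.map j - B.map j * Qi.map j * C.map j := by
      rw [← Matrix.map_mul, ← Matrix.map_mul]
      ext i k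
      simp only [Matrix.map_apply, Matrix.sub_apply, map_sub]
    rw [h4]
    exact hu
  obtain ⟨y, hy, hLy⟩ := exists_mulVec_of_not_isUnit _ hsing
  obtain ⟨r, _, A', B', hlt, hAB⟩ := linear_factor eps x j t bal ind Jinj a comm L hL y hy hLy
  let U1 : Matrix (n ⊕ κ) (n ⊕ κ) S := fromBlocks 1 (-(B * Qi)) 0 1
  let U2 : Matrix (n ⊕ κ) (n ⊕ κ) S := fromBlocks 1 0 (-(Qi * C)) Qi
  let A1 : Matrix (n ⊕ κ) r S := U1 * A'
  let B1 : Matrix r (n ⊕ κ) S := B' * U2
  refine ⟨κ, inferInstance, inferInstance, r, inferInstance, A1, B1, hlt, ?_⟩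
  have h5 : fromBlocks P 0 0 (1 : Matrix κ κ S) =
      fromBlocks 1 (-(B * Qi)) 0 1 * L * fromBlocks 1 0 (-(Qi * C)) Qi := by
    have h6 : fromBlocks (1 : Matrix n n S) (-(B * Qi)) 0 1 * L = fromBlocks P 0 C Q := by
      rw [hLdef, fromBlocks_multiply]
      congr 1
      · rw [h3]; simp only [Matrix.one_mul, Matrix.neg_mul]; abel
      · simp only [Matrix.one_mul, Matrix.neg_mul, Matrix.mul_assoc, h2, Matrix.mul_one]; abel
      · simp
      · simp
    rw [h6, fromBlocks_multiply]
    congr 1
    · simp
    · simp
    · simp only [Matrix.mul_one, Matrix.mul_neg, ← Matrix.mul_assoc, h1, Matrix.one_mul]; abel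
    · simp [h1]
  change _ = (U1 * A') * (B' * U2)
  rw [h5, hAB, Matrix.mul_assoc, Matrix.mul_assoc, Matrix.mul_assoc]

end key

end Pool.H97.UF
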