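import Pool.Agent.H97.UF.Rep

set_option autoImplicit false

/-!
Linear algebra over division rings; stably hollow matrices.
-/

namespace Pool.H97.UF

open Matrix

universe u v w

variable {D : Type v} [DivisionRing D]

theorem exists_vecMul_of_not_isUnit {m : Type} [Fintype m] [DecidableEq m] (A : Matrix m m D)
    (h : ¬ IsUnit A) : ∃ d : m → D, d ≠ 0 ∧ d ᵥ* A = 0 := by
  by_contra hcon
  push Not at hcon
  have hinj : Function.Injective (Matrix.vecMulLinear A) := by
    rw [injective_iff_map_eq_zero]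
    intro d hd
    by_contra hne
    exact hcon d hne hd
  have hsurj := (LinearMap.injective_iff_surjective (f := Matrix.vecMulLinear A)).1 hinj
  choose B hB using fun i : m => hsurj (Pi.single i 1)
  have hBA : Matrix.of B * A = 1 := by
    ext i k
    have := congrFun (hB i) k
    rw [Matrix.vecMulLinear_apply] at this
    rw [Matrix.mul_apply_eq_vecMul]
    change (B i ᵥ* A) k = _
    rw [this]
    rw [Matrix.one_eq_pi_single]
  exact h (IsUnit.of_mul_eq_one_right (Matrix.of B) hBA)

theorem exists_mulVec_of_not_isUnit {m : Type} [Fintype m] [DecidableEq m] (A : Matrix m m D)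
    (h : ¬ IsUnit A) : ∃ y : m → D, y ≠ 0 ∧ A *ᵥ y = 0 := by
  by_contra hcon
  push Not at hcon
  let f : (m → D) →ₗ[Dᵐᵒᵖ] (m → D) :=
    { toFun := fun y => A *ᵥ y
      map_add' := fun y z => Matrix.mulVec_add A y z
      map_smul' := by
        intro c y
        ext i
        simp [Matrix.mulVec, dotProduct, Finset.sum_mul, mul_assoc] }
  have hinj : Function.Injective f := by
    rw [injective_iff_map_eq_zero]
    intro d hd
    by_contra hne
    exact hcon d hne hd
  haveI hfin1 : Module.Finite Dᵐᵒᵖ D := by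
    refine ⟨⟨{1}, ?_⟩⟩
    rw [eq_top_iff]
    intro x _
    have : x = MulOpposite.op x • (1 : D) := by simp
    rw [this]
    exact Submodule.smul_mem _ _ (Submodule.subset_span (by simp))
  haveI hfin2 : Module.Finite Dᵐᵒᵖ (m → D) := Module.Finite.pi
  have hsurj := (LinearMap.injective_iff_surjective (f := f)).1 hinj
  choose B hB using fun i : m => hsurj (Pi.single i 1)
  have hBA : A * (Matrix.of B)ᵀ = 1 := by
    ext i k
    have := congrFun (hB k) i
    change (A *ᵥ B k) i = _ at this
    rw [Matrix.mul_apply]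
    rw [Matrix.mulVec, dotProduct] at this
    simp only [Matrix.transpose_apply, Matrix.of_apply]
    rw [this, Matrix.one_apply, Pi.single_apply]
  exact h (IsUnit.of_mul_eq_one _ hBA)

theorem not_isUnit_of_mulVec {m : Type} [Fintype m] [DecidableEq m] (A : Matrix m m D)
    {y : m → D} (hy : y ≠ 0) (h : A *ᵥ y = 0) : ¬ IsUnit A := by
  rintro ⟨U, rfl⟩
  apply hy
  have : (U⁻¹.1 * U.1) *ᵥ y = 0 := by
    rw [← Matrix.mulVec_mulVec, h, Matrix.mulVec_zero]
  simpa using this

theorem exists_vecMul_of_mulVec {m : Type} [Fintype m] [DecidableEq m] (A : Matrix m m D)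
    {y : m → D} (hy : y ≠ 0) (h : A *ᵥ y = 0) : ∃ d : m → D, d ≠ 0 ∧ d ᵥ* A = 0 :=
  exists_vecMul_of_not_isUnit A (not_isUnit_of_mulVec A hy h)

/-- A product `A * B` of inner size smaller than the size is not invertible. -/
theorem not_isUnit_mul_of_card_lt {N r : Type} [Fintype N] [DecidableEq N] [Fintype r]
    (A : Matrix N r D) (B : Matrix r N D) (h : Fintype.card r < Fintype.card N) :
    ¬ IsUnit (A * B) := by
  rintro ⟨U, hU⟩
  have hinj : Function.Injective (Matrix.vecMulLinear A) := by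
    rw [injective_iff_map_eq_zero]
    intro d hd
    rw [Matrix.vecMulLinear_apply] at hd
    have h1 : d ᵥ* (A * B) = 0 := by
      rw [← Matrix.vecMul_vecMul, hd, Matrix.zero_vecMul]
    rw [← hU] at h1
    have h2 : d ᵥ* (U.1 * U⁻¹.1) = 0 := by
      rw [← Matrix.vecMul_vecMul, h1, Matrix.zero_vecMul]
    simpa using h2
  have := card_le_of_injective D (Matrix.vecMulLinear A) hinj
  omega

variable {S : Type u} [Ring S]

/-- Stably hollow square matrices. -/
def Hollow {n : Type} [Fintype n] [DecidableEq n] (P : Matrix n n S) : Prop :=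
  ∃ (k : Type) (_ : Fintype k) (_ : DecidableEq k) (r : Type) (_ : Fintype r)
    (A : Matrix (n ⊕ k) r S) (B : Matrix r (n ⊕ k) S),
    Fintype.card r < Fintype.card (n ⊕ k) ∧ fromBlocks P 0 0 1 = A * B

theorem isUnit_fromBlocks_one {R : Type v} [Ring R] {n k : Type} [Fintype n] [DecidableEq n]
    [Fintype k] [DecidableEq k]
    {P : Matrix n n R} (h : IsUnit P) : IsUnit (fromBlocks P 0 0 (1 : Matrix k k R)) := by
  obtain ⟨U, rfl⟩ := h
  refine ⟨⟨fromBlocks U.1 0 0 1, fromBlocks U⁻¹.1 0 0 1, ?_, ?_⟩, rfl⟩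
  · rw [fromBlocks_multiply]; simp
  · rw [fromBlocks_multiply]; simp

theorem map_one' {R : Type v} [Ring R] (j : S →+* R) {m : Type} [DecidableEq m] :
    (1 : Matrix m m S).map j = 1 := by
  ext i k
  by_cases hik : i = k
  · subst hik; simp
  · simp [Matrix.one_apply_ne hik]

theorem map_zero' {R : Type v} [Ring R] (j : S →+* R) {m n : Type} :
    (0 : Matrix m n S).map j = 0 := by
  ext i k; simp

theorem not_isUnit_of_hollow (j : S →+* D) {n : Type} [Fintype n] [DecidableEq n]
    {P : Matrix n n S} (h : Hollow P) : ¬ IsUnit (P.map j) := by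
  obtain ⟨k, _, _, r, _, A, B, hlt, hAB⟩ := h
  intro hu
  have h1 : IsUnit (fromBlocks (P.map j) 0 0 (1 : Matrix k k D)) := isUnit_fromBlocks_one hu
  have h2 : fromBlocks (P.map j) 0 0 (1 : Matrix k k D) = A.map j * B.map j := by
    have := congrArg (fun M : Matrix (n ⊕ k) (n ⊕ k) S => M.map j) hAB
    simp only [fromBlocks_map, map_zero', map_one'] at this
    rw [this, Matrix.map_mul]
  rw [h2] at h1
  exact not_isUnit_mul_of_card_lt _ _ hlt h1

/-- The Schur complement of an invertible block is invertible iff the whole matrix is. -/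
theorem isUnit_fromBlocks_iff {R : Type v} [Ring R] {n k : Type} [Fintype n] [DecidableEq n]
    [Fintype k] [DecidableEq k] (A : Matrix n n R) (B : Matrix n k R) (C : Matrix k n R)
    (Q Qi : Matrix k k R) (h1 : Q * Qi = 1) (h2 : Qi * Q = 1) :
    IsUnit (fromBlocks A B C Q) ↔ IsUnit (A - B * Qi * C) := by
  have e : fromBlocks A B C Q = fromBlocks 1 (B * Qi) 0 1 * fromBlocks (A - B * Qi * C) 0 0 1 *
      fromBlocks 1 0 C Q := by
    rw [fromBlocks_multiply, fromBlocks_multiply]
    congr 1
    · simp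
    · simp [Matrix.mul_assoc, h2]
    · simp
    · simp
  have u1 : IsUnit (fromBlocks (1 : Matrix n n R) (B * Qi) 0 (1 : Matrix k k R)) := by
    refine ⟨⟨fromBlocks 1 (B * Qi) 0 1, fromBlocks 1 (-(B * Qi)) 0 1, ?_, ?_⟩, rfl⟩
    · rw [fromBlocks_multiply]; simp
    · rw [fromBlocks_multiply]; simp
  have u2 : IsUnit (fromBlocks (1 : Matrix n n R) 0 C Q) := by
    refine ⟨⟨fromBlocks 1 0 C Q, fromBlocks 1 0 (-(Qi * C)) Qi, ?_, ?_⟩, rfl⟩
    · rw [fromBlocks_multiply]; simp [← Matrix.mul_assoc, h1]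
    · rw [fromBlocks_multiply]; simp [h2]
  constructor
  · intro h
    rw [e] at h
    have h3 : IsUnit (fromBlocks (A - B * Qi * C) 0 0 (1 : Matrix k k R)) := by
      obtain ⟨U1, hU1⟩ := u1
      obtain ⟨U2, hU2⟩ := u2
      rw [← hU1, ← hU2] at h
      simpa using h
    obtain ⟨⟨M, Mi, hM1, hM2⟩, hM⟩ := h3
    simp only at hM
    subst hM
    rw [← fromBlocks_toBlocks Mi, fromBlocks_multiply, ← fromBlocks_one, fromBlocks_inj] at hM1 hM2
    refine ⟨⟨A - B * Qi * C, Mi.toBlocks₁₁, ?_, ?_⟩, rfl⟩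
    · simpa using hM1.1
    · simpa using hM2.1
  · intro h
    rw [e]
    exact (u1.mul (isUnit_fromBlocks_one h)).mul u2

end Pool.H97.UF
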