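import Pool.Agent.H97.UF.LA

set_option autoImplicit false

/-!
Linear matrices over a twisted ring and the key lemma (Lemma L of the Charney-Davis proof).
-/

namespace Pool.H97.UF

open Matrix

universe u₁ u₂ u₃ u₄ u₅

variable {E : Type u₁} {S : Type u₂} {X : Type u₃} {D : Type u₄} {M : Type u₅}
  [DivisionRing E] [Ring S] [DivisionRing D] [AddCommGroup M]

/-- The units, extended by `1`. -/
def xo (x : X → Sˣ) : Option X → S
  | none => 1
  | some i => x i

/-- The linear element with given coordinates. -/
noncomputable def lin (eps : E →+* S) (x : X → Sˣ) : (Option X →₀ E) →+ S :=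
  Finsupp.liftAddHom fun o => (AddMonoidHom.mulRight (xo x o)).comp eps.toAddMonoidHom

theorem lin_apply (eps : E →+* S) (x : X → Sˣ) (p : Option X →₀ E) :
    lin eps x p = p.sum fun o e => eps e * xo x o := rfl

theorem lin_single (eps : E →+* S) (x : X → Sˣ) (o : Option X) (e : E) :
    lin eps x (Finsupp.single o e) = eps e * xo x o := by
  simp [lin]

/-- The additive group of linear elements. -/
noncomputable def Lin (eps : E →+* S) (x : X → Sˣ) : AddSubgroup S := (lin eps x).range

theorem one_mem_Lin (eps : E →+* S) (x : X → Sˣ) : (1 : S) ∈ Lin eps x :=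
  ⟨Finsupp.single none 1, by rw [lin_single]; simp [xo]⟩

theorem eps_mem_Lin (eps : E →+* S) (x : X → Sˣ) (e : E) : eps e ∈ Lin eps x :=
  ⟨Finsupp.single none e, by rw [lin_single]; simp [xo]⟩

theorem x_mem_Lin (eps : E →+* S) (x : X → Sˣ) (i : X) : (x i : S) ∈ Lin eps x :=
  ⟨Finsupp.single (some i) 1, by rw [lin_single]; simp [xo]⟩

theorem lin_mul_eps (eps : E →+* S) (x : X → Sˣ) (a : X → E ≃+* E)
    (comm : ∀ i e, (x i : S) * eps e = eps (a i e) * x i) {s : S} (hs : s ∈ Lin eps x) (e : E) :
    s * eps e ∈ Lin eps x := by
  obtain ⟨p, rfl⟩ := hs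
  induction p using Finsupp.induction_linear with
  | zero => simpa using (Lin eps x).zero_mem
  | add f g hf hg => rw [map_add, add_mul]; exact (Lin eps x).add_mem hf hg
  | single o c =>
    rw [lin_single]
    cases o with
    | none =>
      have : eps c * xo x none * eps e = eps (c * e) := by simp [xo]
      rw [this]
      exact eps_mem_Lin eps x _
    | some i =>
      have : eps c * xo x (some i) * eps e = eps (c * a i e) * x i := by
        simp only [xo, mul_assoc, comm, map_mul]
      rw [this]
      exact ⟨Finsupp.single (some i) (c * a i e), by rw [lin_single]; rfl⟩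

theorem eps_mul_lin (eps : E →+* S) (x : X → Sˣ) (e : E) (p : Option X →₀ E) :
    eps e * lin eps x p = lin eps x (e • p) := by
  induction p using Finsupp.induction_linear with
  | zero => simp
  | add f g hf hg => rw [map_add, mul_add, hf, hg, smul_add, map_add]
  | single o c =>
    rw [lin_single, Finsupp.smul_single, lin_single]
    simp [mul_assoc]

/-- A right linear functional. -/
theorem exists_right_functional (i : E →+* D) (d : D) (hd : d ≠ 0) :
    ∃ φ : D →+ E, (∀ c e, φ (c * i e) = φ c * e) ∧ φ d = 1 := by
  letI : Module Eᵐᵒᵖ D := Module.compHom D (RingHom.op i)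
  have hsm : ∀ (e : E) (c : D), MulOpposite.op e • c = c * i e := fun e c => rfl
  have hinj : LinearMap.ker (LinearMap.toSpanSingleton Eᵐᵒᵖ D d) = ⊥ := by
    rw [LinearMap.ker_eq_bot, injective_iff_map_eq_zero]
    intro e he
    rw [LinearMap.toSpanSingleton_apply] at he
    have h1 : d * i e.unop = 0 := he
    rcases mul_eq_zero.1 h1 with h | h
    · exact absurd h hd
    · have := (map_eq_zero i).1 h
      exact MulOpposite.unop_injective (by simpa using this)
  obtain ⟨g, hg⟩ := LinearMap.exists_leftInverse_of_injective _ hinj
  refine ⟨{ toFun := fun c => (g c).unop, map_zero' := by simp, map_add' := by simp }, ?_, ?_⟩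
  · intro c e
    change (g (c * i e)).unop = (g c).unop * e
    rw [← hsm, map_smul]
    rfl
  · change (g d).unop = 1
    have := LinearMap.congr_fun hg 1
    simp only [LinearMap.comp_apply, LinearMap.toSpanSingleton_apply, one_smul,
      LinearMap.id_apply] at this
    rw [this]; rfl

section key

variable (eps : E →+* S) (x : X → Sˣ) (j : S →+* D) (t : D →+ D →+ M)
  (bal : ∀ (c z : D) (e : E), t (c * j (eps e)) z = t c (j (eps e) * z))
  (ind : ∀ (κ : Type) [Fintype κ] (c z : κ → D),
    (∀ e : κ → E, ∑ k, j (eps (e k)) * z k = 0 → e = 0) → ∑ k, t (c k) (z k) = 0 → c = 0)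
  (Jinj : ∀ (κ : Type) [Fintype κ] (ξ : κ → X) (c z : κ → D),
    ∑ k, (t (c k * j (x (ξ k))) (j ((x (ξ k))⁻¹ : Sˣ) * z k) - t (c k) (z k)) = 0 →
    ∀ (i : X) [DecidablePred fun k => ξ k = i], ∑ k with ξ k = i, t (c k) (z k) = 0)
  (a : X → E ≃+* E) (comm : ∀ i e, (x i : S) * eps e = eps (a i e) * x i)

include bal ind Jinj comm in
theorem key_lemma {B : Type} [Fintype B] (q : B → B → (Option X →₀ E)) (y d : B → D)
    (hy : ∀ e : B → E, ∑ k, j (eps (e k)) * y k = 0 → e = 0) (hd : d ≠ 0)
    (h1 : ∀ b, ∑ b', j (lin eps x (q b b')) * y b' = 0)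
    (h2 : ∀ b', ∑ b, d b * j (lin eps x (q b b')) = 0) :
    ∃ c : B → E, c ≠ 0 ∧ ∀ b', ∑ b, eps (c b) * lin eps x (q b b') = 0 := by
  classical
  -- a finite set of letters containing all supports
  obtain ⟨F, hF⟩ : ∃ F : Finset X, ∀ b b' i, i ∉ F → q b b' (some i) = 0 := by
    refine ⟨Finset.univ.biUnion fun b => Finset.univ.biUnion fun b' =>
      (q b b').support.eraseNone, ?_⟩
    intro b b' i hi
    by_contra hne
    apply hi
    simp only [Finset.mem_biUnion, Finset.mem_univ, true_and]
    exact ⟨b, b', by rw [Finset.mem_eraseNone]; simpa using hne⟩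
  -- expansion of the linear elements
  have hexp : ∀ b b', lin eps x (q b b') =
      eps (q b b' none) + ∑ i : F, eps (q b b' (some i)) * x i := by
    intro b b'
    rw [lin_apply, Finsupp.sum_of_support_subset (s := Finset.insertNone F)]
    · rw [Finset.sum_insertNone, ← Finset.sum_coe_sort F]
      simp [xo]
    · intro o ho
      cases o with
      | none => simp
      | some i =>
        rw [Finset.some_mem_insertNone]
        by_contra hi
        rw [Finsupp.mem_support_iff] at ho
        exact ho (hF b b' i hi)
    · simp
  -- an enumeration of the letters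
  obtain ⟨n, f, hfinj, hfF⟩ : ∃ (n : ℕ) (f : Fin n → X), Function.Injective f ∧
      ∀ i, i ∈ F ↔ ∃ k, f k = i := by
    refine ⟨F.card, fun k => (F.equivFin.symm k : X), ?_, ?_⟩
    · intro k l hkl
      exact F.equivFin.symm.injective (Subtype.ext hkl)
    · intro i
      constructor
      · intro hi
        exact ⟨F.equivFin ⟨i, hi⟩, by simp⟩
      · rintro ⟨k, rfl⟩
        exact (F.equivFin.symm k).2
  have hexp' : ∀ b b', lin eps x (q b b') =
      eps (q b b' none) + ∑ k : Fin n, eps (q b b' (some (f k))) * x (f k) := by
    intro b b'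
    rw [hexp]
    congr 1
    rw [Finset.sum_coe_sort F (fun i => eps (q b b' (some i)) * (x i : S))]
    have hFim : F = Finset.univ.image f := by
      ext i
      rw [hfF]
      simp
    rw [hFim, Finset.sum_image (fun a _ b _ h => hfinj h)]
  -- the sum over the letters
  have hJ : ∀ k : Fin n, ∑ b', t (∑ b, d b * j (eps (q b b' (some (f k)))))
      (j (x (f k)) * y b') = 0 := by
    intro k
    have hfam := Jinj (B × B × Fin n) (fun p => f p.2.2)
      (fun p => d p.1 * j (eps (q p.1 p.2.1 (some (f p.2.2)))))
      (fun p => j (x (f p.2.2)) * y p.2.1) ?_ (f k)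
    · rw [Finset.sum_filter, Fintype.sum_prod_type] at hfam
      simp only [Fintype.sum_prod_type] at hfam
      rw [Finset.sum_comm] at hfam
      rw [← hfam]
      refine Finset.sum_congr rfl fun b' _ => ?_
      rw [map_sum, AddMonoidHom.finsetSum_apply]
      refine Finset.sum_congr rfl fun b _ => ?_
      rw [Finset.sum_eq_single k]
      · simp
      · intro l _ hl
        rw [if_neg]
        intro h
        exact hl (hfinj h)
      · intro h; exact absurd (Finset.mem_univ _) h
    · -- the sum of the family vanishes
      rw [Finset.sum_sub_distrib, sub_eq_zero]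
      have e1 : ∑ p : B × B × Fin n, t (d p.1 * j (eps (q p.1 p.2.1 (some (f p.2.2)))) *
          j (x (f p.2.2))) (j ((x (f p.2.2))⁻¹ : Sˣ) * (j (x (f p.2.2)) * y p.2.1)) =
          - ∑ b', ∑ b, t (d b) (j (eps (q b b' none)) * y b') := by
        have e2 : ∀ b', ∑ b, ∑ k, t (d b * j (eps (q b b' (some (f k)))) * j (x (f k))) (y b') =
            - ∑ b, t (d b) (j (eps (q b b' none)) * y b') := by
          intro b'
          have h3 : ∑ b, ∑ k, d b * j (eps (q b b' (some (f k)))) * j (x (f k)) =
              - ∑ b, d b * j (eps (q b b' none)) := by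
            have := h2 b'
            simp only [hexp', map_add, map_sum, map_mul, mul_add, Finset.sum_add_distrib,
              Finset.mul_sum] at this
            rw [eq_neg_iff_add_eq_zero, add_comm]
            simpa [mul_assoc] using this
          have h4 : ∑ b, ∑ k, t (d b * j (eps (q b b' (some (f k)))) * j (x (f k))) (y b') =
              t (∑ b, ∑ k, d b * j (eps (q b b' (some (f k)))) * j (x (f k))) (y b') := by
            simp only [map_sum, AddMonoidHom.finsetSum_apply]
          rw [h4, h3, map_neg, AddMonoidHom.neg_apply, map_sum, AddMonoidHom.finsetSum_apply]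
          simp only [bal]
        rw [Fintype.sum_prod_type]
        simp only [Fintype.sum_prod_type]
        rw [Finset.sum_comm, ← Finset.sum_neg_distrib]
        refine Finset.sum_congr rfl fun b' _ => ?_
        rw [← e2 b']
        refine Finset.sum_congr rfl fun b _ => Finset.sum_congr rfl fun k _ => ?_
        rw [← mul_assoc (j ((x (f k))⁻¹ : Sˣ)), ← map_mul, Units.inv_mul, map_one, one_mul]
      have e3 : ∑ p : B × B × Fin n, t (d p.1 * j (eps (q p.1 p.2.1 (some (f p.2.2)))))
          (j (x (f p.2.2)) * y p.2.1) =
          - ∑ b', ∑ b, t (d b) (j (eps (q b b' none)) * y b') := by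
        have e2 : ∀ b, ∑ b', ∑ k, t (d b * j (eps (q b b' (some (f k))))) (j (x (f k)) * y b') =
            - ∑ b', t (d b) (j (eps (q b b' none)) * y b') := by
          intro b
          have h3 : ∑ b', ∑ k, j (eps (q b b' (some (f k)))) * (j (x (f k)) * y b') =
              - ∑ b', j (eps (q b b' none)) * y b' := by
            have := h1 b
            simp only [hexp', map_add, map_sum, map_mul, add_mul, Finset.sum_add_distrib,
              Finset.sum_mul] at this
            rw [eq_neg_iff_add_eq_zero, add_comm]
            simpa [mul_assoc] using this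
          have h4 : ∑ b', ∑ k, t (d b * j (eps (q b b' (some (f k))))) (j (x (f k)) * y b') =
              t (d b) (∑ b', ∑ k, j (eps (q b b' (some (f k)))) * (j (x (f k)) * y b')) := by
            simp only [map_sum, bal]
          rw [h4, h3, map_neg, map_sum]
        rw [Fintype.sum_prod_type]
        simp only [Fintype.sum_prod_type]
        rw [Finset.sum_comm (s := Finset.univ (α := B)) (t := Finset.univ (α := B))
          (f := fun b' b => t (d b) (j (eps (q b b' none)) * y b')), ← Finset.sum_neg_distrib]
        exact Finset.sum_congr rfl fun b _ => e2 b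
      rw [e1, e3]
  -- left independence of the vectors `x_i y_b`
  have hzero : ∀ o b', ∑ b, d b * j (eps (q b b' o)) = 0 := by
    have hsome : ∀ (k : Fin n) b', ∑ b, d b * j (eps (q b b' (some (f k)))) = 0 := by
      intro k
      have := ind B (fun b' => ∑ b, d b * j (eps (q b b' (some (f k)))))
        (fun b' => j (x (f k)) * y b') ?_ (hJ k)
      · intro b'
        exact congrFun this b'
      · intro e he
        have h5 : ∀ b', eps (e b') * (x (f k) : S) = x (f k) * eps ((a (f k)).symm (e b')) := by
          intro b'
          rw [comm, RingEquiv.apply_symm_apply]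
        have h6 : j (x (f k)) * ∑ b', j (eps ((a (f k)).symm (e b'))) * y b' = 0 := by
          rw [Finset.mul_sum, ← he]
          refine Finset.sum_congr rfl fun b' _ => ?_
          rw [← mul_assoc, ← mul_assoc, ← map_mul, ← map_mul, h5]
        have h7 : ∑ b', j (eps ((a (f k)).symm (e b'))) * y b' = 0 := by
          have : j ((x (f k))⁻¹ : Sˣ) * (j (x (f k)) *
              ∑ b', j (eps ((a (f k)).symm (e b'))) * y b') = 0 := by rw [h6, mul_zero]
          rwa [← mul_assoc, ← map_mul, Units.inv_mul, map_one, one_mul] at this
        have h8 := hy _ h7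
        funext b'
        have h9 := congrFun h8 b'
        simp only [Pi.zero_apply] at h9 ⊢
        exact (map_eq_zero_iff _ (a (f k)).symm.injective).1 h9
    intro o b'
    cases o with
    | some i =>
      by_cases hi : i ∈ F
      · obtain ⟨k, rfl⟩ := (hfF i).1 hi
        exact hsome k b'
      · simp [hF _ _ i hi]
    | none =>
      have := h2 b'
      simp only [hexp', map_add, map_sum, map_mul, mul_add, Finset.sum_add_distrib,
        Finset.mul_sum] at this
      rw [Finset.sum_comm] at this
      have h10 : ∀ k : Fin n, ∑ b, d b * (j (eps (q b b' (some (f k)))) * j (x (f k))) = 0 := by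
        intro k
        simp only [← mul_assoc]
        rw [← Finset.sum_mul, hsome k b', zero_mul]
      simp only [h10, Finset.sum_const_zero, add_zero] at this
      exact this
  -- pass to coefficients in `E`
  obtain ⟨b0, hb0⟩ : ∃ b0, d b0 ≠ 0 := by
    by_contra hcon
    push Not at hcon
    exact hd (funext hcon)
  obtain ⟨φ, hφ, hφ1⟩ := exists_right_functional (j.comp eps) (d b0) hb0
  refine ⟨fun b => φ (d b), ?_, ?_⟩
  · intro h
    have := congrFun h b0
    simp only [Pi.zero_apply] at this
    rw [hφ1] at this
    exact one_ne_zero this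
  · intro b'
    simp only [eps_mul_lin]
    rw [← map_sum]
    have : ∑ b, φ (d b) • q b b' = 0 := by
      ext o
      rw [Finsupp.finsetSum_apply]
      simp only [Finsupp.smul_apply, smul_eq_mul, Finsupp.coe_zero, Pi.zero_apply]
      have h11 := hzero o b'
      have h12 : φ (∑ b, d b * j (eps (q b b' o))) = 0 := by rw [h11, map_zero]
      rw [map_sum] at h12
      rw [← h12]
      refine Finset.sum_congr rfl fun b _ => ?_
      exact (hφ _ _).symm
    rw [this, map_zero]

end key

end Pool.H97.UF
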