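import Mathlib

set_option autoImplicit false

/-!
Schur complement representations (Higman's trick) over noncommutative rings.
-/

namespace Pool.H97.UF

open Matrix

universe u v

variable {S : Type u} {R : Type v} [Ring S] [Ring R]

/-- `P` is the Schur complement, over `R`, of a block matrix over `S` with entries in `L`. -/
def Rep (j : S →+* R) (L : AddSubgroup S) {n m : Type} (P : Matrix n m R) : Prop :=
  ∃ (κ : Type) (_ : Fintype κ) (_ : DecidableEq κ) (A : Matrix n m S) (B : Matrix n κ S)
    (C : Matrix κ m S) (Q : Matrix κ κ S) (Qi : Matrix κ κ R),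
    (∀ i k, A i k ∈ L) ∧ (∀ i k, B i k ∈ L) ∧ (∀ i k, C i k ∈ L) ∧ (∀ i k, Q i k ∈ L) ∧
    Q.map j * Qi = 1 ∧ Qi * Q.map j = 1 ∧ P = A.map j - B.map j * Qi * C.map j

variable {j : S →+* R} {L : AddSubgroup S}

theorem rep_lin {n m : Type} (A : Matrix n m S) (hA : ∀ i k, A i k ∈ L) :
    Rep j L (A.map j) := by
  refine ⟨Empty, inferInstance, inferInstance, A, 0, 0, 0, 0, hA, ?_, ?_, ?_, ?_, ?_, ?_⟩
  · intro i k; exact k.elim
  · intro i; exact i.elim
  · intro i; exact i.elim
  · ext i; exact i.elim
  · ext i; exact i.elim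
  · ext i k
    simp

theorem rep_add {n m : Type} {P P' : Matrix n m R} (h : Rep j L P) (h' : Rep j L P') :
    Rep j L (P + P') := by
  obtain ⟨κ, _, _, A, B, C, Q, Qi, hA, hB, hC, hQ, h1, h2, rfl⟩ := h
  obtain ⟨κ', _, _, A', B', C', Q', Qi', hA', hB', hC', hQ', h1', h2', rfl⟩ := h'
  refine ⟨κ ⊕ κ', inferInstance, inferInstance, A + A', fromCols B B', fromRows C C',
    fromBlocks Q 0 0 Q', fromBlocks Qi 0 0 Qi', ?_, ?_, ?_, ?_, ?_, ?_, ?_⟩
  · intro i k; exact L.add_mem (hA i k) (hA' i k)
  · rintro i (k | k)
    · exact hB i k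
    · exact hB' i k
  · rintro (i | i) k
    · exact hC i k
    · exact hC' i k
  · rintro (i | i) (k | k)
    · exact hQ i k
    · exact L.zero_mem
    · exact L.zero_mem
    · exact hQ' i k
  · rw [fromBlocks_map, fromBlocks_multiply]
    simp [h1, h1', Matrix.map_zero]
  · rw [fromBlocks_map, fromBlocks_multiply]
    simp [h2, h2', Matrix.map_zero]
  · have e1 : (fromCols B B').map j = fromCols (B.map j) (B'.map j) := by
      ext i (k | k) <;> rfl
    have e2 : (fromRows C C').map j = fromRows (C.map j) (C'.map j) := by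
      ext (i | i) k <;> rfl
    have e3 : (A + A').map j = A.map j + A'.map j := by
      ext i k; simp
    rw [e1, e2, e3, fromCols_mul_fromBlocks, fromCols_mul_fromRows]
    simp only [Matrix.mul_zero, add_zero, zero_add]
    abel

theorem rep_neg {n m : Type} {P : Matrix n m R} (h : Rep j L P) : Rep j L (-P) := by
  obtain ⟨κ, _, _, A, B, C, Q, Qi, hA, hB, hC, hQ, h1, h2, rfl⟩ := h
  refine ⟨κ, inferInstance, inferInstance, -A, -B, C, Q, Qi, ?_, ?_, hC, hQ, h1, h2, ?_⟩
  · intro i k; exact L.neg_mem (hA i k)
  · intro i k; exact L.neg_mem (hB i k)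
  · have e1 : (-A).map j = -A.map j := by ext i k; simp
    have e2 : (-B).map j = -B.map j := by ext i k; simp
    rw [e1, e2]
    simp only [Matrix.neg_mul]
    abel

theorem fromRows_add' {a b c : Type} (X X' : Matrix a c R) (Y Y' : Matrix b c R) :
    fromRows X Y + fromRows X' Y' = fromRows (X + X') (Y + Y') := by
  ext (i | i) k <;> simp

theorem fromCols_add' {a b c : Type} (X X' : Matrix a b R) (Y Y' : Matrix a c R) :
    fromCols X Y + fromCols X' Y' = fromCols (X + X') (Y + Y') := by
  ext i (k | k) <;> simp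

theorem map_neg_one {m : Type} [DecidableEq m] : (-1 : Matrix m m S).map j = -1 := by
  ext i k
  by_cases hik : i = k
  · subst hik; simp
  · simp [Matrix.one_apply_ne hik]

theorem rep_mul (hone : (1 : S) ∈ L) {n m l : Type} [Fintype m] [DecidableEq m]
    {P : Matrix n m R} {P' : Matrix m l R} (h : Rep j L P) (h' : Rep j L P') :
    Rep j L (P * P') := by
  obtain ⟨κ, _, _, A, B, C, Q, Qi, hA, hB, hC, hQ, h1, h2, rfl⟩ := h
  obtain ⟨κ', _, _, A', B', C', Q', Qi', hA', hB', hC', hQ', h1', h2', rfl⟩ := h'
  have z1 : ∀ {a b : Type}, (0 : Matrix a b S).map j = 0 := fun {a b} => by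
    ext i k; simp
  refine ⟨m ⊕ (κ ⊕ κ'), inferInstance, inferInstance, 0, fromCols A (fromCols B 0),
    fromRows A' (fromRows 0 C'),
    fromBlocks (-1) (fromCols 0 B') (fromRows C 0) (fromBlocks Q 0 0 Q'),
    fromBlocks (-1) (fromCols 0 (B'.map j * Qi')) (fromRows (Qi * C.map j) 0)
      (fromBlocks Qi (-(Qi * C.map j * (B'.map j * Qi'))) 0 Qi'), ?_, ?_, ?_, ?_, ?_, ?_, ?_⟩
  · intro i k; exact L.zero_mem
  · rintro i (k | k | k)
    · exact hA i k
    · exact hB i k
    · exact L.zero_mem
  · rintro (i | i | i) k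
    · exact hA' i k
    · exact L.zero_mem
    · exact hC' i k
  · rintro (i | i | i) (k | k | k)
    · change (-(1 : Matrix m m S)) i k ∈ L
      rw [Matrix.neg_apply]
      refine L.neg_mem ?_
      by_cases hik : i = k
      · subst hik; simpa using hone
      · rw [Matrix.one_apply_ne hik]; exact L.zero_mem
    · exact L.zero_mem
    · exact hB' i k
    · exact hC i k
    · exact hQ i k
    · exact L.zero_mem
    · exact L.zero_mem
    · exact L.zero_mem
    · exact hQ' i k
  · rw [fromBlocks_map, fromBlocks_map, map_neg_one, fromCols_map, fromRows_map,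
      fromBlocks_multiply, ← fromBlocks_one (l := m) (m := κ ⊕ κ'), ← fromBlocks_one (l := κ) (m := κ')]
    simp only [z1]
    congr 1
    · rw [fromCols_mul_fromRows]; simp
    · rw [mul_fromCols, fromCols_mul_fromBlocks, fromCols_add']
      simp
    · rw [fromRows_mul, fromBlocks_mul_fromRows, fromRows_add']
      simp only [Matrix.mul_neg, Matrix.mul_one, Matrix.zero_mul, Matrix.mul_zero, add_zero,
        ← Matrix.mul_assoc, h1, Matrix.one_mul, neg_add_cancel, neg_zero, fromRows_zero]
    · rw [fromRows_mul_fromCols, fromBlocks_multiply, fromBlocks_add]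
      simp only [Matrix.mul_neg, Matrix.zero_mul, Matrix.mul_zero, add_zero, zero_add,
        ← Matrix.mul_assoc, h1, h1', Matrix.one_mul, add_neg_cancel, neg_zero]
  · rw [fromBlocks_map, fromBlocks_map, map_neg_one, fromCols_map, fromRows_map,
      fromBlocks_multiply, ← fromBlocks_one (l := m) (m := κ ⊕ κ'), ← fromBlocks_one (l := κ) (m := κ')]
    simp only [z1]
    congr 1
    · rw [fromCols_mul_fromRows]; simp
    · rw [mul_fromCols, fromCols_mul_fromBlocks, fromCols_add']
      simp only [Matrix.mul_neg, Matrix.neg_mul, Matrix.mul_one, Matrix.one_mul, Matrix.zero_mul,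
        Matrix.mul_zero, add_zero, zero_add, Matrix.mul_assoc, h2', neg_add_cancel, neg_zero,
        fromCols_zero]
    · rw [fromRows_mul, fromBlocks_mul_fromRows, fromRows_add']
      simp only [Matrix.mul_neg, Matrix.mul_one, Matrix.zero_mul, Matrix.mul_zero, add_zero,
        neg_add_cancel, neg_zero, fromRows_zero]
    · rw [fromRows_mul_fromCols, fromBlocks_multiply, fromBlocks_add]
      simp only [Matrix.neg_mul, Matrix.zero_mul, Matrix.mul_zero, add_zero, zero_add,
        Matrix.mul_assoc, h2, h2', Matrix.mul_one, add_neg_cancel]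
  · rw [fromCols_map, fromCols_map, fromRows_map, fromRows_map]
    simp only [z1]
    rw [fromCols_mul_fromBlocks, fromCols_mul_fromRows, fromCols_mul_fromRows,
      fromCols_mul_fromBlocks, mul_fromCols, fromCols_add', fromCols_mul_fromRows]
    simp only [Matrix.mul_neg, Matrix.neg_mul, Matrix.mul_one, Matrix.one_mul, Matrix.zero_mul,
        Matrix.mul_zero, add_zero, zero_add, Matrix.sub_mul, Matrix.mul_sub, Matrix.add_mul,
        Matrix.mul_assoc]
    abel

theorem rep_inv {n : Type} [Fintype n] [DecidableEq n] (hone : (1 : S) ∈ L)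
    {P P' : Matrix n n R} (h : Rep j L P) (hPP : P * P' = 1) (hPP' : P' * P = 1) :
    Rep j L P' := by
  obtain ⟨κ, _, _, A, B, C, Q, Qi, hA, hB, hC, hQ, h1, h2, rfl⟩ := h
  have z1 : ∀ {a b : Type}, (0 : Matrix a b S).map j = 0 := fun {a b} => by
    ext i k; simp
  have hone' : ∀ i k, (1 : Matrix n n S) i k ∈ L := by
    intro i k
    by_cases hik : i = k
    · subst hik; simpa using hone
    · rw [Matrix.one_apply_ne hik]; exact L.zero_mem
  refine ⟨n ⊕ κ, inferInstance, inferInstance, 0, fromCols (-1) 0, fromRows 1 0,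
    fromBlocks A B C Q,
    fromBlocks P' (-(P' * B.map j * Qi)) (-(Qi * C.map j * P'))
      (Qi + Qi * C.map j * P' * B.map j * Qi), ?_, ?_, ?_, ?_, ?_, ?_, ?_⟩
  · intro i k; exact L.zero_mem
  · rintro i (k | k)
    · exact L.neg_mem (hone' i k)
    · exact L.zero_mem
  · rintro (i | i) k
    · exact hone' i k
    · exact L.zero_mem
  · rintro (i | i) (k | k)
    · exact hA i k
    · exact hB i k
    · exact hC i k
    · exact hQ i k
  · have e1 : A.map j * P' = 1 + B.map j * (Qi * (C.map j * P')) := by
      rw [← hPP]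
      simp only [Matrix.sub_mul, Matrix.mul_assoc]
      abel
    rw [fromBlocks_map, fromBlocks_multiply, ← fromBlocks_one (l := n) (m := κ)]
    congr 1
    · simp only [Matrix.mul_neg, Matrix.mul_assoc, e1]
      abel
    · have : A.map j * (P' * (B.map j * Qi)) = B.map j * Qi +
          B.map j * (Qi * (C.map j * (P' * (B.map j * Qi)))) := by
        rw [← Matrix.mul_assoc (A.map j), e1]
        simp only [Matrix.add_mul, Matrix.one_mul, Matrix.mul_assoc]
      simp only [Matrix.mul_neg, Matrix.mul_assoc, Matrix.mul_add, this]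
      abel
    · simp only [Matrix.mul_neg, ← Matrix.mul_assoc, h1, Matrix.one_mul]
      abel
    · simp only [Matrix.mul_neg, ← Matrix.mul_assoc, Matrix.mul_add, h1, Matrix.one_mul]
      abel
  · have e1 : P' * A.map j = 1 + P' * (B.map j * (Qi * C.map j)) := by
      rw [← hPP']
      simp only [Matrix.mul_sub, Matrix.mul_assoc]
      abel
    rw [fromBlocks_map, fromBlocks_multiply, ← fromBlocks_one (l := n) (m := κ)]
    congr 1
    · simp only [Matrix.neg_mul, Matrix.mul_assoc, e1]
      abel
    · simp only [Matrix.neg_mul, Matrix.mul_assoc, h2, Matrix.mul_one]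
      abel
    · simp only [Matrix.neg_mul, Matrix.mul_assoc, Matrix.add_mul, e1, Matrix.mul_add,
        Matrix.mul_one]
      abel
    · simp only [Matrix.neg_mul, Matrix.mul_assoc, Matrix.add_mul, h2, Matrix.mul_one]
      abel
  · have e1 : (1 : Matrix n n S).map j = 1 := by
      ext i k
      by_cases hik : i = k
      · subst hik; simp
      · simp [Matrix.one_apply_ne hik]
    rw [fromCols_map, fromRows_map, z1, z1, z1, map_neg_one, e1, fromCols_mul_fromBlocks,
      fromCols_mul_fromRows]
    simp

/-- The `1 × 1` matrix with entry `r`. -/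
def one11 {R : Type v} (r : R) : Matrix Unit Unit R := Matrix.of fun _ _ => r

variable (j L) in
/-- The ring of all elements of `R` with a Schur complement representation. -/
def ratSubring (hone : (1 : S) ∈ L) : Subring R where
  carrier := {r | Rep j L (one11 r)}
  mul_mem' := by
    intro a b ha hb
    have h := rep_mul hone ha hb
    have e : one11 a * one11 b = one11 (a * b) := by
      ext i k
      simp [one11, Matrix.mul_apply]
    rw [e] at h
    exact h
  one_mem' := by
    have h := rep_lin (j := j) (L := L) (one11 (1 : S)) (fun _ _ => hone)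
    have e : (one11 (1 : S)).map j = one11 (1 : R) := by
      ext i k
      simp [one11]
    rw [e] at h
    exact h
  add_mem' := by
    intro a b ha hb
    exact rep_add ha hb
  zero_mem' := by
    have h := rep_lin (j := j) (L := L) (one11 (0 : S)) (fun _ _ => L.zero_mem)
    have e : (one11 (0 : S)).map j = one11 (0 : R) := by
      ext i k
      simp [one11]
    rw [e] at h
    exact h
  neg_mem' := by
    intro a ha
    exact rep_neg ha

theorem mem_ratSubring {hone : (1 : S) ∈ L} {r : R} :
    r ∈ ratSubring j L hone ↔ Rep j L (one11 r) := Iff.rfl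

theorem lin_mem_ratSubring {hone : (1 : S) ∈ L} {s : S} (hs : s ∈ L) :
    j s ∈ ratSubring j L hone := by
  have h := rep_lin (j := j) (L := L) (one11 s) (fun _ _ => hs)
  have e : (one11 s).map j = one11 (j s) := by
    ext i k
    simp [one11]
  rw [e] at h
  exact h

theorem inv_mem_ratSubring {hone : (1 : S) ∈ L} {r r' : R} (hr : r ∈ ratSubring j L hone)
    (h1 : r * r' = 1) (h2 : r' * r = 1) : r' ∈ ratSubring j L hone := by
  refine rep_inv hone (P := one11 r) hr ?_ ?_
  · ext i k
    simp [one11, Matrix.mul_apply, h1]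
  · ext i k
    simp [one11, Matrix.mul_apply, h2]

/-- A matrix all whose entries are representable is representable. -/
theorem rep_of_entries {hone : (1 : S) ∈ L} {n m : Type} [Fintype n] [Fintype m]
    [DecidableEq n] [DecidableEq m] (P : Matrix n m R)
    (hP : ∀ i k, P i k ∈ ratSubring j L hone) : Rep j L P := by
  choose κ hF hD A B C Q Qi hA hB hC hQ h1 h2 h3 using fun p : n × m => hP p.1 p.2
  refine ⟨Σ p : n × m, κ p, inferInstance, inferInstance, Matrix.of fun i k => A (i, k) () (),
    Matrix.of fun i q => if q.1.1 = i then B q.1 () q.2 else 0,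
    Matrix.of fun q k => if q.1.2 = k then C q.1 q.2 () else 0,
    blockDiagonal' Q, blockDiagonal' Qi, ?_, ?_, ?_, ?_, ?_, ?_, ?_⟩
  · intro i k; exact hA (i, k) () ()
  · rintro i ⟨p, t⟩
    rw [Matrix.of_apply]
    split_ifs
    · exact hB p () t
    · exact L.zero_mem
  · rintro ⟨p, t⟩ k
    rw [Matrix.of_apply]
    split_ifs
    · exact hC p t ()
    · exact L.zero_mem
  · rintro ⟨p, t⟩ ⟨q, u⟩
    by_cases hpq : p = q
    · subst hpq
      rw [blockDiagonal'_apply_eq]
      exact hQ p t u
    · rw [blockDiagonal'_apply_ne _ _ _ hpq]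
      exact L.zero_mem
  · rw [blockDiagonal'_map _ _ (map_zero j), ← blockDiagonal'_mul]
    simp only [h1]
    exact blockDiagonal'_one
  · rw [blockDiagonal'_map _ _ (map_zero j), ← blockDiagonal'_mul]
    simp only [h2]
    exact blockDiagonal'_one
  · ext i k
    have e := congrFun (congrFun (h3 (i, k)) ()) ()
    change P i k = _ at e
    rw [e, Matrix.sub_apply, Matrix.sub_apply]
    congr 1
    rw [Matrix.mul_apply, Matrix.mul_apply, Fintype.sum_sigma]
    rw [Finset.sum_eq_single (i, k)]
    · refine Finset.sum_congr rfl fun t _ => ?_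
      rw [Matrix.mul_apply, Matrix.mul_apply, Fintype.sum_sigma, Finset.sum_eq_single (i, k)]
      · simp
      · intro p _ hp
        refine Finset.sum_eq_zero fun u _ => ?_
        rw [blockDiagonal'_apply_ne _ _ _ hp, mul_zero]
      · intro h; exact absurd (Finset.mem_univ _) h
    · intro p _ hp
      refine Finset.sum_eq_zero fun t _ => ?_
      by_cases hk : p.2 = k
      · have hi : p.1 ≠ i := fun hi => hp (Prod.ext hi hk)
        have : (((Matrix.of fun i (q : Σ p : n × m, κ p) => if q.1.1 = i then B q.1 () q.2 else 0).map j)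
            * blockDiagonal' Qi) i ⟨p, t⟩ = 0 := by
          rw [Matrix.mul_apply, Fintype.sum_sigma]
          refine Finset.sum_eq_zero fun q _ => Finset.sum_eq_zero fun u _ => ?_
          by_cases hq : q = p
          · subst hq
            simp [hi]
          · rw [blockDiagonal'_apply_ne _ _ _ hq, mul_zero]
        rw [this, zero_mul]
      · simp [hk]
    · intro h; exact absurd (Finset.mem_univ _) h

end Pool.H97.UF
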